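import Mathlib
import Pool.Agent.Lib.MP_6c36f4_an.Family

set_option autoImplicit false

open MeasureTheory Complex Set
open scoped Real ENNReal InnerProductSpace

namespace Pool.Agent.Results.MP_6c36f4_an.ClosedInterval

/-- Lebesgue measure on `Ω`. -/
noncomputable def vol {n : ℕ} (Ω : Set (Fin n → ℂ)) : Measure (Fin n → ℂ) := volume.restrict Ω

/-- `F` belongs to `A²(Ω)`: the class `F` in `L²(Ω)` has a representative holomorphic on `Ω`. -/
def IsHol {n : ℕ} (Ω : Set (Fin n → ℂ)) (F : Lp ℂ 2 (vol Ω)) : Prop :=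
  ∃ g : (Fin n → ℂ) → ℂ, DifferentiableOn ℂ g Ω ∧ F =ᵐ[vol Ω] g

/-- The orthogonal projection of a Hilbert space onto the closed linear span of a set `S`. -/
noncomputable def proj {E : Type} [NormedAddCommGroup E] [InnerProductSpace ℂ E] [CompleteSpace E]
    (S : Set E) (x : E) : E := (Submodule.span ℂ S).topologicalClosure.starProjection x

/-- The Bergman projection: the orthogonal projection of `L²(Ω)` onto `A²(Ω)`. -/
noncomputable def bergman {n : ℕ} (Ω : Set (Fin n → ℂ)) (F : Lp ℂ 2 (vol Ω)) : Lp ℂ 2 (vol Ω) :=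
  proj {G | IsHol Ω G} F

/-- `L^p` boundedness of the Bergman projection. -/
def IsLpBounded {n : ℕ} (Ω : Set (Fin n → ℂ)) (p : ℝ) : Prop :=
  ∃ C : ℝ, ∀ f : Lp ℂ 2 (vol Ω), MemLp f (ENNReal.ofReal p) (vol Ω) →
    eLpNorm (bergman Ω f) (ENNReal.ofReal p) (vol Ω) ≤
      ENNReal.ofReal C * eLpNorm f (ENNReal.ofReal p) (vol Ω)

/-- The `L^p` boundedness interval of the Bergman projection. -/
def boundednessInterval {n : ℕ} (Ω : Set (Fin n → ℂ)) : Set ℝ :=
  {p | 1 < p ∧ IsLpBounded Ω p}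

/-! ### `A²(Ω)` is a subspace, and uniqueness of the projection -/

/-- The subspace `A²(Ω)` of `L²(Ω)`. -/
def A2 {n : ℕ} (Ω : Set (Fin n → ℂ)) : Submodule ℂ (Lp ℂ 2 (vol Ω)) where
  carrier := {F | IsHol Ω F}
  add_mem' := by
    rintro F G ⟨g, hg, hF⟩ ⟨h, hh, hG⟩
    refine ⟨g + h, hg.add hh, ?_⟩
    exact (Lp.coeFn_add F G).trans (hF.add hG)
  zero_mem' := ⟨0, differentiableOn_const 0, Lp.coeFn_zero _ _ _⟩
  smul_mem' := by
    rintro c F ⟨g, hg, hF⟩
    refine ⟨c • g, hg.const_smul c, ?_⟩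
    exact (Lp.coeFn_smul c F).trans (hF.const_smul c)

lemma span_eq {n : ℕ} (Ω : Set (Fin n → ℂ)) : Submodule.span ℂ {G | IsHol Ω G} = A2 Ω :=
  Submodule.span_eq (A2 Ω)

lemma bergman_def {n : ℕ} {Ω : Set (Fin n → ℂ)} (F : Lp ℂ 2 (vol Ω)) :
    bergman Ω F = (A2 Ω).topologicalClosure.starProjection F := by
  unfold bergman proj
  have h : ∀ K : Submodule ℂ (Lp ℂ 2 (vol Ω)), K = A2 Ω →
      K.topologicalClosure.starProjection F = (A2 Ω).topologicalClosure.starProjection F := by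
    rintro K rfl
    rfl
  exact h _ (span_eq Ω)

lemma inner_eq {n : ℕ} {Ω : Set (Fin n → ℂ)} (F G : Lp ℂ 2 (vol Ω)) :
    ⟪G, F⟫_ℂ = ∫ z, F z * (starRingEnd ℂ) (G z) ∂(vol Ω) := by
  rw [L2.inner_def]
  refine integral_congr_ae (Filter.Eventually.of_forall fun z => ?_)
  simp [RCLike.inner_apply]

lemma bergman_eq {n : ℕ} {Ω : Set (Fin n → ℂ)} {F G : Lp ℂ 2 (vol Ω)}
    (hG : G ∈ A2 Ω) (h : ∀ H ∈ A2 Ω, ⟪H, F - G⟫_ℂ = 0) : bergman Ω F = G := by
  rw [bergman_def]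
  refine Submodule.eq_starProjection_of_mem_orthogonal
    (Submodule.le_topologicalClosure _ hG) ?_
  rw [Submodule.orthogonal_closure, Submodule.mem_orthogonal]
  exact h

lemma bergman_orth {n : ℕ} {Ω : Set (Fin n → ℂ)} (F : Lp ℂ 2 (vol Ω))
    {H : Lp ℂ 2 (vol Ω)} (hH : H ∈ A2 Ω) : ⟪H, F - bergman Ω F⟫_ℂ = 0 := by
  have h1 := Submodule.sub_starProjection_mem_orthogonal (K := (A2 Ω).topologicalClosure) F
  rw [Submodule.orthogonal_closure, Submodule.mem_orthogonal] at h1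
  rw [bergman_def]
  exact h1 H hH

/-- On a domain whose `A²(Ω)` is closed, boundedness of the projection can be tested on pairs
`(f, g)` of functions with `g` holomorphic and `f - g` orthogonal to `A²(Ω)`. -/
lemma isLpBounded_iff {n : ℕ} {Ω : Set (Fin n → ℂ)}
    (hcl : IsClosed (A2 Ω : Set (Lp ℂ 2 (vol Ω)))) (p : ℝ) :
    IsLpBounded Ω p ↔ ∃ C : ℝ, ∀ f g : (Fin n → ℂ) → ℂ,
          MemLp f 2 (vol Ω) →
          MemLp f (ENNReal.ofReal p) (vol Ω) →
          DifferentiableOn ℂ g Ω →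
          MemLp g 2 (vol Ω) →
          (∀ h : (Fin n → ℂ) → ℂ, DifferentiableOn ℂ h Ω → MemLp h 2 (vol Ω) →
              ∫ z, (f z - g z) * (starRingEnd ℂ) (h z) ∂(vol Ω) = 0) →
          eLpNorm g (ENNReal.ofReal p) (vol Ω)
            ≤ ENNReal.ofReal C * eLpNorm f (ENNReal.ofReal p) (vol Ω) := by
  constructor
  · rintro ⟨C, hC⟩
    refine ⟨C, fun f g hf hfp hg hg2 horth => ?_⟩
    have hFf := hf.coeFn_toLp
    have hGg := hg2.coeFn_toLp
    have hGA : hg2.toLp g ∈ A2 Ω := ⟨g, hg, hGg⟩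
    have hb : bergman Ω (hf.toLp f) = hg2.toLp g := by
      refine bergman_eq hGA ?_
      rintro H ⟨h, hh, hH⟩
      rw [inner_eq]
      have hh2 : MemLp h 2 (vol Ω) := (memLp_congr_ae hH).mp (Lp.memLp H)
      rw [← horth h hh hh2]
      refine integral_congr_ae ?_
      filter_upwards [hFf, hGg, hH, Lp.coeFn_sub (hf.toLp f) (hg2.toLp g)] with z h1 h2 h3 h4
      rw [h4, Pi.sub_apply, h1, h2, h3]
    have h1 := hC (hf.toLp f) ((memLp_congr_ae hFf).mpr hfp)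
    rw [hb, eLpNorm_congr_ae hGg, eLpNorm_congr_ae hFf] at h1
    exact h1
  · rintro ⟨C, hC⟩
    refine ⟨C, fun F hFp => ?_⟩
    have hmem : bergman Ω F ∈ A2 Ω := by
      have h1 : bergman Ω F ∈ (A2 Ω).topologicalClosure := by
        rw [bergman_def]
        exact Submodule.starProjection_apply_mem _ _
      rwa [hcl.submodule_topologicalClosure_eq] at h1
    obtain ⟨g, hg, hBg⟩ := hmem
    have hg2 : MemLp g 2 (vol Ω) := (memLp_congr_ae hBg).mp (Lp.memLp _)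
    have h1 := hC F g (Lp.memLp F) hFp hg hg2 ?_
    · rw [eLpNorm_congr_ae hBg]
      exact h1
    · intro h hh hh2
      have hHh := hh2.coeFn_toLp
      have hHA : hh2.toLp h ∈ A2 Ω := ⟨h, hh, hHh⟩
      have h2 := bergman_orth F hHA
      rw [inner_eq] at h2
      rw [← h2]
      refine integral_congr_ae ?_
      filter_upwards [hBg, hHh, Lp.coeFn_sub F (bergman Ω F)] with z h3 h4 h5
      rw [h5, Pi.sub_apply, h3, h4]

/-! ### The examples -/

open Pool.Agent.Lib.MP_6c36f4_an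
open Pool.Agent.Lib.MP_6c36f4_an.Fam

variable {b : ℝ} [hb2 : Fact (2 < b)] [hb4 : Fact (b < 4)]

lemma W2 : MemLp Fam.W 2 (vol (Fam.Om b)) := Fam.W_memLp2 (b := b)

lemma A2_Om : A2 (Fam.Om b) = ℂ ∙ ((W2 (b := b)).toLp Fam.W) := by
  ext F
  rw [Submodule.mem_span_singleton]
  constructor
  · rintro ⟨g, hg, hFg⟩
    have hg2 : MemLp g 2 (vol (Fam.Om b)) := (memLp_congr_ae hFg).mp (Lp.memLp F)
    obtain ⟨c, hc⟩ := Fam.bergman_Om hg hg2
    refine ⟨c, ?_⟩
    refine Lp.ext ?_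
    filter_upwards [hFg, Lp.coeFn_smul c ((W2 (b := b)).toLp Fam.W),
      (W2 (b := b)).coeFn_toLp, ae_restrict_mem Fam.Om_meas] with z h1 h2 h3 h4
    rw [h2, Pi.smul_apply, h3, h1, hc z h4, smul_eq_mul]
  · rintro ⟨c, rfl⟩
    exact (A2 (Fam.Om b)).smul_mem c ⟨Fam.W, Fam.W_diff, (W2 (b := b)).coeFn_toLp⟩

lemma closed_A2_Om : IsClosed (A2 (Fam.Om b) : Set (Lp ℂ 2 (vol (Fam.Om b)))) := by
  rw [A2_Om]
  exact Submodule.closed_of_finiteDimensional _

omit hb2 hb4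

/-- For every real number `b` with `2 < b < 4` there is a domain `Ω` in `ℂ²` for which `A²(Ω)`
consists of the complex multiples of the second coordinate function and the `L^p` boundedness
interval of the Bergman projection is exactly the closed interval `[b / (b - 1), b]`. -/
theorem result : ∀ b : ℝ, 2 < b → b < 4 →
    ∃ Ω : Set (Fin 2 → ℂ), IsOpen Ω ∧ IsConnected Ω ∧ MemLp (fun x => x 1) 2 (vol Ω) ∧
      (∀ g : (Fin 2 → ℂ) → ℂ, DifferentiableOn ℂ g Ω → MemLp g 2 (vol Ω) →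
        ∃ c : ℂ, ∀ x ∈ Ω, g x = c * x 1) ∧
      boundednessInterval Ω = Set.Icc (b / (b - 1)) b := by
  intro b h2 h4
  have : Fact (2 < b) := ⟨h2⟩
  have : Fact (b < 4) := ⟨h4⟩
  refine ⟨Fam.Om b, Fam.Om_open, Fam.Om_connected, W2 (b := b),
    fun g hg hg2 => Fam.bergman_Om hg hg2, ?_⟩
  ext p
  constructor
  · rintro ⟨hp, hb⟩
    obtain ⟨C, hC⟩ := (isLpBounded_iff closed_A2_Om p).mp hb
    exact Fam.not_bounded hp hC
  · rintro ⟨h1, h2'⟩
    refine ⟨?_, (isLpBounded_iff closed_A2_Om p).mpr (Fam.upper_bound h1 h2')⟩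
    refine lt_of_lt_of_le ?_ h1
    rw [lt_div_iff₀ (by linarith)]
    linarith

end Pool.Agent.Results.MP_6c36f4_an.ClosedInterval
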